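import Mathlib
import Pool.Agent.helper30.NR.Final2
import Pool.Agent.helper71.NO.Core

set_option autoImplicit false

/-!
# The numerical radius of a hyperbolic automorphic composition operator as the largest root
# of an explicit function

Let `φ` be a hyperbolic automorphism of the disc with fixed points `ω₁, ω₂`, `κ = |ω₁ + ω₂| / 2`,
`q` its multiplier at the attracting fixed point, `L = q^(-1/2)` and `g(x) = 1 - 2 κ x + x²`.
For `t ≥ L` put `τ = t / L`, `β = τ - sqrt (τ² - 1)`, `σ = τ + sqrt (τ² - q²)`, `z = (β σ)^(-1/2)`.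
The power series `A` and `U` with `A(0) = U(0) = 1` and
`A(x) = g(x) ((1 + β²) A(q x) - β² g(q² x) A(q² x))`,
`U(y) = (1 + q²/σ²) g(q² y) U(q y) - (q²/σ²) g(q y) g(q³ y) U(q² y)`
converge everywhere. With
`F(t) = σ A(z) U(1/(q z)) - β g(q z) g(q/z) A(q z) U(1/z)`
the numerical radius of `C_φ` on `H²` is the largest zero of `F` in `(L, ∞)`, or `L` if there is none;
it is also the only `t ≥ L` such that the Jacobi form with weights
`sqrt (g(z q^(m+1)) / (q g(z q^m)))`, `m ∈ ℤ`, `z = z(t)`, has supremum `t`.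
-/

namespace Pool.Agent.Results.MP_96b5bf_an.LargestRoot

open Finset

noncomputable section

/-- The Hardy space `H²` of the unit disc: square-summable sequences of Taylor coefficients. -/
abbrev Hardy : Type := lp (fun _ : ℕ => ℂ) 2

/-- The value at `z` of the function with Taylor coefficients `f`. -/
def value (f : Hardy) (z : ℂ) : ℂ := ∑' n : ℕ, f n * z ^ n

/-- `C` is the composition operator `f ↦ f ∘ φ` on `H²`. -/
def IsCompositionOperator (φ : ℂ → ℂ) (C : Hardy →L[ℂ] Hardy) : Prop :=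
  ∀ (f : Hardy) (z : ℂ), ‖z‖ < 1 → value (C f) z = value f (φ z)

/-- The numerical range `{⟨C f, f⟩ : ‖f‖ = 1}` (Mathlib's `inner ℂ f (C f)` is linear in `C f`). -/
def numRange (C : Hardy →L[ℂ] Hardy) : Set ℂ := {w | ∃ f : Hardy, ‖f‖ = 1 ∧ w = inner ℂ f (C f)}

/-- The numerical radius. -/
def numRadius (C : Hardy →L[ℂ] Hardy) : ℝ := sSup {r | ∃ w ∈ numRange C, r = ‖w‖}

/-- The disc automorphism `z ↦ c (z - a) / (1 - conj a z)`. -/
def aut (c a z : ℂ) : ℂ := c * (z - a) / (1 - (starRingEnd ℂ) a * z)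

/-- `(S + sqrt (S² + 4)) / 2` with `S = r d / sqrt (1 - r²)`. -/
def Lam (r d : ℝ) : ℝ :=
  (r * d / Real.sqrt (1 - r ^ 2) + Real.sqrt ((r * d / Real.sqrt (1 - r ^ 2)) ^ 2 + 4)) / 2

/-- `g(x) = 1 - 2 κ x + x²`. -/
def g (κ x : ℝ) : ℝ := 1 - 2 * κ * x + x ^ 2

/-- the weight `b(x) = sqrt (g(q x) / (q g(x)))`. -/
def b (κ q x : ℝ) : ℝ := Real.sqrt (g κ (q * x) / (q * g κ x))

/-- the values `∑_{n<N} b(z q^m q^n) y_n y_{n+1}` with `m ∈ ℤ` and `∑_{n≤N} y_n² = 1`, i.e. the values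
at finitely supported unit vectors of the bilateral Jacobi form with weights `b(z q^m)`, `m ∈ ℤ`. -/
def orbitValues (κ q z : ℝ) : Set ℝ := {s | ∃ (m : ℤ) (N : ℕ) (y : ℕ → ℝ),
  ∑ n ∈ range (N + 1), y n ^ 2 = 1 ∧ s = ∑ n ∈ range N, b κ q (z * q ^ m * q ^ n) * y n * y (n + 1)}

/-- `β = τ - sqrt (τ² - 1)` -/
def beta (τ : ℝ) : ℝ := τ - Real.sqrt (τ ^ 2 - 1)

/-- `σ = τ + sqrt (τ² - q²)` -/
def sigma (q τ : ℝ) : ℝ := τ + Real.sqrt (τ ^ 2 - q ^ 2)

/-- `z = (β σ)^(-1/2)` -/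
def base (q τ : ℝ) : ℝ := Real.sqrt (1 / (beta τ * sigma q τ))

/-- the sequence of coefficients of a polynomial, from the list of its coefficients -/
def poly (l : List ℝ) (n : ℕ) : ℝ := l.getD n 0

/-- the coefficients `y_k` with `y_0 = 1` and, for `k ≥ 1`,
`(1 - q^k) (1 - B q^k) y_k = ∑_{j<k} ((1 + B) α_{k-j} q^j - B γ_{k-j} q^{2j}) y_j`. -/
def coef (q B : ℝ) (α γ : ℕ → ℝ) : ℕ → ℝ
  | 0 => 1
  | (k + 1) => (∑ j : Fin (k + 1), ((1 + B) * α (k + 1 - j) * q ^ (j : ℕ) -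
      B * γ (k + 1 - j) * q ^ (2 * (j : ℕ))) * coef q B α γ j) / ((1 - q ^ (k + 1)) * (1 - B * q ^ (k + 1)))
  decreasing_by exact j.2

/-- the coefficients of `A`: `α(x) = g(x)`, `γ(x) = g(x) g(q² x)`, `B = β²` -/
def coefA (κ q τ : ℝ) : ℕ → ℝ :=
  coef q (beta τ ^ 2) (poly [1, -2 * κ, 1])
    (poly [1, -2 * κ * (1 + q ^ 2), 1 + q ^ 4 + 4 * κ ^ 2 * q ^ 2, -2 * κ * (q ^ 2 + q ^ 4), q ^ 4])

/-- the coefficients of `U`: `α(y) = g(q² y)`, `γ(y) = g(q y) g(q³ y)`, `B = q²/σ²` -/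
def coefU (κ q τ : ℝ) : ℕ → ℝ :=
  coef q (q ^ 2 / sigma q τ ^ 2) (poly [1, -2 * κ * q ^ 2, q ^ 4])
    (poly [1, -2 * κ * (q + q ^ 3), q ^ 2 + q ^ 6 + 4 * κ ^ 2 * q ^ 4, -2 * κ * (q ^ 5 + q ^ 7), q ^ 8])

/-- `A(x) = ∑ a_k x^k` -/
def A (κ q τ x : ℝ) : ℝ := ∑' k, coefA κ q τ k * x ^ k

/-- `U(y) = ∑ u_k y^k` -/
def U (κ q τ y : ℝ) : ℝ := ∑' k, coefU κ q τ k * y ^ k

/-- `F = σ A(z) U(1/(q z)) - β g(q z) g(q/z) A(q z) U(1/z)` -/
def F (κ q τ : ℝ) : ℝ :=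
  sigma q τ * A κ q τ (base q τ) * U κ q τ (1 / (q * base q τ)) -
    beta τ * g κ (q * base q τ) * g κ (q / base q τ) * A κ q τ (q * base q τ) * U κ q τ (1 / base q τ)

open Pool.Agent.helper71.NO in
lemma coef_eq (q B : ℝ) (α γ : ℕ → ℝ) (k : ℕ) : coef q B α γ k = cf q B α γ k := by
  induction k using Nat.strong_induction_on with
  | _ k ih =>
    rcases k with _ | k
    · rw [coef, cf_zero]
    · rw [coef, cf_succ]
      congr 1
      rw [Finset.sum_range (fun j => ((1 + B) * α (k + 1 - j) * q ^ j -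
        B * γ (k + 1 - j) * (q ^ j) ^ 2) * cf q B α γ j)]
      apply sum_congr rfl
      intro j _
      rw [ih j j.2, mul_comm 2 (j : ℕ), pow_mul]

open Pool.Agent.helper71.NO in
lemma poly_eq3 (a0 a1 a2 : ℝ) : poly [a0, a1, a2] = q5 a0 a1 a2 0 0 := by
  funext n
  rcases n with _ | _ | _ | _ | _ | n <;> rfl

open Pool.Agent.helper71.NO in
lemma poly_eq5 (a0 a1 a2 a3 a4 : ℝ) : poly [a0, a1, a2, a3, a4] = q5 a0 a1 a2 a3 a4 := by
  funext n
  rcases n with _ | _ | _ | _ | _ | n <;> rfl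

open Pool.Agent.helper71.NO in
lemma coefA_eq (κ q τ : ℝ) : coefA κ q τ = Aco κ q (bt τ) := by
  funext k
  unfold coefA Aco
  rw [coef_eq, poly_eq3, poly_eq5]
  rfl

open Pool.Agent.helper71.NO in
lemma coefU_eq (κ q τ : ℝ) : coefU κ q τ = Uco κ q (st q τ) := by
  funext k
  unfold coefU Uco
  rw [coef_eq, poly_eq3, poly_eq5]
  rfl

open Pool.Agent.helper71.NO in
lemma A_eq (κ q τ x : ℝ) : A κ q τ x = evr (Aco κ q (bt τ)) x := by
  unfold A evr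
  rw [coefA_eq]

open Pool.Agent.helper71.NO in
lemma U_eq (κ q τ x : ℝ) : U κ q τ x = evr (Uco κ q (st q τ)) x := by
  unfold U evr
  rw [coefU_eq]

open Pool.Agent.helper71.NO in
lemma F_eq (κ q τ : ℝ) : F κ q τ = KR κ q (bt τ) (st q τ) (zt q τ) := by
  unfold F KR
  rw [A_eq, A_eq, U_eq, U_eq]
  rfl

theorem result (c a ω₁ ω₂ : ℂ) (hc : ‖c‖ = 1) (ha : ‖a‖ < 1) (h₁ : ‖ω₁‖ = 1) (h₂ : ‖ω₂‖ = 1)
    (hne : ω₁ ≠ ω₂) (hf₁ : aut c a ω₁ = ω₁) (hf₂ : aut c a ω₂ = ω₂) (h₀ : aut c a 0 ≠ 0)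
    (κ L q : ℝ) (hκ : κ = ‖ω₁ + ω₂‖ / 2) (hL : L = Lam ‖aut c a 0‖ ‖ω₁ - ω₂‖) (hq : q = 1 / L ^ 2) :
    0 < q ∧ q < 1 ∧ q = min ‖deriv (aut c a) ω₁‖ ‖deriv (aut c a) ω₂‖ ∧
    (∃! C : Hardy →L[ℂ] Hardy, IsCompositionOperator (aut c a) C) ∧
    (∀ t, L ≤ t → ∀ x : ℝ,
      Summable (fun k => coefA κ q (t / L) k * x ^ k) ∧ Summable (fun k => coefU κ q (t / L) k * x ^ k) ∧
      A κ q (t / L) x = g κ x * ((1 + beta (t / L) ^ 2) * A κ q (t / L) (q * x) -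
        beta (t / L) ^ 2 * g κ (q ^ 2 * x) * A κ q (t / L) (q ^ 2 * x)) ∧
      U κ q (t / L) x = (1 + q ^ 2 / sigma q (t / L) ^ 2) * g κ (q ^ 2 * x) * U κ q (t / L) (q * x) -
        q ^ 2 / sigma q (t / L) ^ 2 * g κ (q * x) * g κ (q ^ 3 * x) * U κ q (t / L) (q ^ 2 * x)) ∧
    ∀ C : Hardy →L[ℂ] Hardy, IsCompositionOperator (aut c a) C →
      IsLUB {r | ∃ w ∈ numRange C, r = ‖w‖} (numRadius C) ∧
      IsGreatest ({L} ∪ {t | L < t ∧ F κ q (t / L) = 0}) (numRadius C) ∧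
      (∀ t, L < t → numRadius C < t → 0 < F κ q (t / L)) ∧
      (∀ t, L ≤ t → (t = numRadius C ↔ IsLUB (orbitValues κ q (base q (t / L))) t)) ∧
      (∀ t, L ≤ t → (numRadius C ≤ t ↔ ∀ s ∈ orbitValues κ q (base q (t / L)), s ≤ t)) := by
  open Pool.Agent.helper30.NR in
  have H : Hyp c a ω₁ ω₂ := ⟨hc, ha, h₁, h₂, hne, hf₁, hf₂⟩
  have ha0 : a ≠ 0 := by
    rintro rfl
    apply h₀
    simp [aut]
  wlog hlt : Pool.Agent.helper30.NR.qq a ω₁ < 1 generalizing ω₁ ω₂ with HW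
  · have hlt2 : Pool.Agent.helper30.NR.qq a ω₂ < 1 := by
      have h3 := H.qq_mul
      have h4 : 1 < Pool.Agent.helper30.NR.qq a ω₁ :=
        lt_of_le_of_ne (not_lt.1 hlt) (H.ne_one ha0).symm
      have h5 := H.swap.qq_pos
      by_contra hcon
      push Not at hcon
      nlinarith
    have h6 := HW ω₂ ω₁ h₂ h₁ hne.symm hf₂ hf₁ (by rw [hκ, add_comm]) (by rw [hL, norm_sub_rev])
      H.swap hlt2
    rw [min_comm]
    exact h6
  have hr0 : ‖aut c a 0‖ = ‖a‖ := Pool.Agent.helper30.NR.mob_zero_norm hc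
  have hqq : q = Pool.Agent.helper30.NR.qq a ω₁ := by
    rw [hq, hL, hr0]
    exact H.qq_eq hlt.le
  have hLq : L = 1 / Real.sqrt q := by
    rw [hqq, hL, hr0]
    exact H.LL_eq hlt.le
  obtain ⟨κ', s, hκ0, hs, h1, hr, hκ'⟩ := Pool.Agent.helper30.NR.exists_root H.h1 H.h2 H.hne
  have hκκ : κ' = κ := by rw [hκ', hκ]
  have hκlt : κ ^ 2 < 1 := by
    have h3 := pow_pos (abs_pos.2 hs) 2
    rw [sq_abs] at h3
    rw [← hκκ]
    linarith
  have hκ0' : 0 ≤ κ := by rw [← hκκ]; exact hκ0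
  have hex := Pool.Agent.helper30.NR.exists_comp H hs h1 hr hlt
  have hqpos : 0 < q := by rw [hqq]; exact H.qq_pos
  have hq1 : q < 1 := by rw [hqq]; exact hlt
  have hsq : 0 < Real.sqrt q := Real.sqrt_pos.2 hqpos
  have hLpos : 0 < L := by rw [hLq]; positivity
  have htL : ∀ t, t / L = t * Real.sqrt q := by
    intro t
    rw [hLq]
    field_simp
  refine ⟨hqpos, hq1, ?_, ?_, ?_, ?_⟩
  · have e1 : ‖deriv (aut c a) ω₁‖ = Pool.Agent.helper30.NR.qq a ω₁ := H.norm_deriv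
    have e2 : ‖deriv (aut c a) ω₂‖ = Pool.Agent.helper30.NR.qq a ω₂ := H.swap.norm_deriv
    rw [e1, e2, ← hqq, min_eq_left]
    have h3 := H.qq_mul
    rw [← hqq] at h3
    have h4 := H.swap.qq_pos
    nlinarith
  · obtain ⟨C, hC⟩ := hex
    refine ⟨C, hC, fun C' hC' => ?_⟩
    ext1 f
    apply Pool.Agent.helper30.NR.coeff_unique
    intro z hz
    rw [hC f z hz]
    exact hC' f z hz
  · intro t ht x
    have hτ : 1 ≤ t / L := by rw [le_div_iff₀ hLpos]; linarith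
    have P := Pool.Agent.helper71.NO.par_of hκlt hqpos hq1 hτ
    refine ⟨?_, ?_, ?_, ?_⟩
    · rw [coefA_eq]; exact (P.entA.hasSum_real x).summable
    · rw [coefU_eq]; exact (P.entU.hasSum_real x).summable
    · have h3 := P.feAR x
      rw [A_eq, A_eq, A_eq]
      have e : q ^ 2 * x = q * (q * x) := by ring
      rw [e]
      exact h3
    · have h3 := P.feU (x : ℂ)
      rw [U_eq, U_eq, U_eq]
      have a1 : (q : ℂ) ^ 2 * (x : ℂ) = ((q ^ 2 * x : ℝ) : ℂ) := by push_cast; ring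
      have a2 : (q : ℂ) * (x : ℂ) = ((q * x : ℝ) : ℂ) := by push_cast; ring
      have a3 : (q : ℂ) ^ 3 * (x : ℂ) = ((q ^ 3 * x : ℝ) : ℂ) := by push_cast; ring
      rw [a1, a2, a3, Pool.Agent.helper71.NO.ev_ofReal, Pool.Agent.helper71.NO.ev_ofReal,
        Pool.Agent.helper71.NO.ev_ofReal, Pool.Agent.helper71.NO.gC_ofReal, Pool.Agent.helper71.NO.gC_ofReal,
        Pool.Agent.helper71.NO.gC_ofReal] at h3
      exact_mod_cast h3
  · intro C hC
    have hset : {r | ∃ w ∈ numRange C, r = ‖w‖} = Pool.Agent.helper30.NR.absRange C := by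
      ext r
      constructor
      · rintro ⟨w, ⟨f, hf, rfl⟩, rfl⟩
        exact ⟨f, hf, rfl⟩
      · rintro ⟨f, hf, rfl⟩
        exact ⟨_, ⟨f, hf, rfl⟩, rfl⟩
    have core := Pool.Agent.helper30.NR.final_core H hlt (C := C) hC hκ hqq
      (w := numRadius C) (by unfold numRadius; rw [hset])
    obtain ⟨-, -, -, c1, c2, c3, c4, -, -⟩ := core
    rw [← hset] at c1
    obtain ⟨t1, t2, t3, t4⟩ := Pool.Agent.helper71.NO.core hκ0' hκlt hqpos hq1 c2 c3 c4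
    rw [← hLq] at t1 t2 t3 t4 c4
    refine ⟨c1, ⟨?_, ?_⟩, ?_, ?_, ?_⟩
    · rcases eq_or_lt_of_le c4 with heq | hlt2
      · left
        exact heq.symm
      · right
        refine ⟨hlt2, ?_⟩
        rw [F_eq, htL]
        exact t4 hlt2
    · rintro t (rfl | ⟨ht, hF⟩)
      · exact c4
      · by_contra hcon
        push Not at hcon
        have h3 := t3 t ht hcon
        rw [← htL, ← F_eq, hF] at h3
        exact lt_irrefl _ h3
    · intro t ht hwt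
      rw [F_eq, htL]
      exact t3 t ht hwt
    · intro t ht
      rw [htL]
      exact (t2 t ht).symm
    · intro t ht
      rw [htL]
      exact t1 t ht

end

end Pool.Agent.Results.MP_96b5bf_an.LargestRoot
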