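import Mathlib
import Pool.Agent.helper30.NR.Final2

set_option autoImplicit false

/-!
# Numerical radius of hyperbolic automorphic composition operators on `H²`

For a hyperbolic automorphism `φ` of the disc with fixed points `ω₁, ω₂` on the circle put
`κ = |ω₁ + ω₂| / 2` and let `q = min (|φ'(ω₁)|, |φ'(ω₂)|) < 1` be the multiplier at the attracting
fixed point. We prove
`w(C_φ) = sup` of the numerical radii of the weighted shifts with weights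
`sqrt (g(u q^(n+1)) / (q g(u q^n)))`, `g(x) = 1 - 2 κ x + x²`, together with the dual min-max formula,
and `w(C_φ) = q^(-1/2)` whenever `2 κ² ≤ 1 - q`.
-/

namespace Pool.Agent.Results.MP_96b5bf_an.NumRadius

open Finset

noncomputable section

/-- The Hardy space `H²` of the unit disc: square-summable sequences of Taylor coefficients. -/
abbrev Hardy : Type := lp (fun _ : ℕ => ℂ) 2

/-- The value at `z` of the function with Taylor coefficients `f`. -/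
def value (f : Hardy) (z : ℂ) : ℂ := ∑' n : ℕ, f n * z ^ n

/-- `C` is the composition operator `f ↦ f ∘ φ` on `H²`. -/
def IsCompositionOperator (φ : ℂ → ℂ) (C : Hardy →L[ℂ] Hardy) : Prop :=
  ∀ (f : Hardy) (z : ℂ), ‖z‖ < 1 → value (C f) z = value f (φ z)

/-- The numerical range `{⟨C f, f⟩ : ‖f‖ = 1}` (Mathlib's `inner ℂ f (C f)` is linear in `C f`). -/
def numRange (C : Hardy →L[ℂ] Hardy) : Set ℂ := {w | ∃ f : Hardy, ‖f‖ = 1 ∧ w = inner ℂ f (C f)}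

/-- The numerical radius. -/
def numRadius (C : Hardy →L[ℂ] Hardy) : ℝ := sSup {r | ∃ w ∈ numRange C, r = ‖w‖}

/-- The disc automorphism `z ↦ c (z - a) / (1 - conj a z)`. -/
def aut (c a z : ℂ) : ℂ := c * (z - a) / (1 - (starRingEnd ℂ) a * z)

/-- `(S + sqrt (S² + 4)) / 2` with `S = r d / sqrt (1 - r²)`. -/
def Lam (r d : ℝ) : ℝ :=
  (r * d / Real.sqrt (1 - r ^ 2) + Real.sqrt ((r * d / Real.sqrt (1 - r ^ 2)) ^ 2 + 4)) / 2

/-- `g(x) = 1 - 2 κ x + x²`. -/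
def g (κ x : ℝ) : ℝ := 1 - 2 * κ * x + x ^ 2

/-- the weight `b(x) = sqrt (g(q x) / (q g(x)))`. -/
def b (κ q x : ℝ) : ℝ := Real.sqrt (g κ (q * x) / (q * g κ x))

/-- the values `∑_{n<N} b(u q^n) y_n y_{n+1}` with `u > 0` and `∑_{n≤N} y_n² = 1`. -/
def jacobiValues (κ q : ℝ) : Set ℝ := {t | ∃ u : ℝ, 0 < u ∧ ∃ (N : ℕ) (y : ℕ → ℝ),
  ∑ n ∈ range (N + 1), y n ^ 2 = 1 ∧ t = ∑ n ∈ range N, b κ q (u * q ^ n) * y n * y (n + 1)}

theorem result (c a ω₁ ω₂ : ℂ) (hc : ‖c‖ = 1) (ha : ‖a‖ < 1) (h₁ : ‖ω₁‖ = 1) (h₂ : ‖ω₂‖ = 1)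
    (hne : ω₁ ≠ ω₂) (hf₁ : aut c a ω₁ = ω₁) (hf₂ : aut c a ω₂ = ω₂) (h₀ : aut c a 0 ≠ 0)
    (κ L q : ℝ) (hκ : κ = ‖ω₁ + ω₂‖ / 2) (hL : L = Lam ‖aut c a 0‖ ‖ω₁ - ω₂‖) (hq : q = 1 / L ^ 2) :
    0 < q ∧ q < 1 ∧ q = min ‖deriv (aut c a) ω₁‖ ‖deriv (aut c a) ω₂‖ ∧
    (∃! C : Hardy →L[ℂ] Hardy, IsCompositionOperator (aut c a) C) ∧
    ∀ C : Hardy →L[ℂ] Hardy, IsCompositionOperator (aut c a) C →
      IsLUB {r | ∃ w ∈ numRange C, r = ‖w‖} (numRadius C) ∧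
      IsLUB (jacobiValues κ q) (numRadius C) ∧
      (∀ t : ℝ, numRadius C ≤ t ↔ ∃ E : ℝ → ℝ, (∀ x > 0, 0 < E x) ∧
        ∀ x > 0, (E (q * x) + b κ q x ^ 2 / E x) / 2 ≤ t) ∧
      L ≤ numRadius C ∧
      (2 * κ ^ 2 ≤ 1 - q → numRadius C = L) ∧
      (1 < 2 * κ ^ 2 → L < numRadius C) := by
  open Pool.Agent.helper30.NR in
  have H : Hyp c a ω₁ ω₂ := ⟨hc, ha, h₁, h₂, hne, hf₁, hf₂⟩
  have ha0 : a ≠ 0 := by
    rintro rfl
    apply h₀
    simp [aut]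
  wlog hlt : Pool.Agent.helper30.NR.qq a ω₁ < 1 generalizing ω₁ ω₂ with HW
  · have hlt2 : Pool.Agent.helper30.NR.qq a ω₂ < 1 := by
      have h3 := H.qq_mul
      have h4 : 1 < Pool.Agent.helper30.NR.qq a ω₁ :=
        lt_of_le_of_ne (not_lt.1 hlt) (H.ne_one ha0).symm
      have h5 := H.swap.qq_pos
      by_contra hcon
      push Not at hcon
      nlinarith
    have h6 := HW ω₂ ω₁ h₂ h₁ hne.symm hf₂ hf₁ (by rw [hκ, add_comm]) (by rw [hL, norm_sub_rev])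
      H.swap hlt2
    rw [min_comm]
    exact h6
  have hr0 : ‖aut c a 0‖ = ‖a‖ := Pool.Agent.helper30.NR.mob_zero_norm hc
  have hqq : q = Pool.Agent.helper30.NR.qq a ω₁ := by
    rw [hq, hL, hr0]
    exact H.qq_eq hlt.le
  have hLq : L = 1 / Real.sqrt q := by
    rw [hqq, hL, hr0]
    exact H.LL_eq hlt.le
  obtain ⟨κ', s, hκ0, hs, h1, hr, hκ'⟩ := Pool.Agent.helper30.NR.exists_root H.h1 H.h2 H.hne
  have hex := Pool.Agent.helper30.NR.exists_comp H hs h1 hr hlt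
  have hqpos : 0 < q := by rw [hqq]; exact H.qq_pos
  refine ⟨hqpos, by rw [hqq]; exact hlt, ?_, ?_, ?_⟩
  · have e1 : ‖deriv (aut c a) ω₁‖ = Pool.Agent.helper30.NR.qq a ω₁ := H.norm_deriv
    have e2 : ‖deriv (aut c a) ω₂‖ = Pool.Agent.helper30.NR.qq a ω₂ := H.swap.norm_deriv
    rw [e1, e2, ← hqq, min_eq_left]
    have h3 := H.qq_mul
    rw [← hqq] at h3
    have h4 := H.swap.qq_pos
    rw [← hqq] at hlt
    nlinarith
  · obtain ⟨C, hC⟩ := hex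
    refine ⟨C, hC, fun C' hC' => ?_⟩
    ext1 f
    apply Pool.Agent.helper30.NR.coeff_unique
    intro z hz
    rw [hC f z hz]
    exact hC' f z hz
  · intro C hC
    have hset : {r | ∃ w ∈ numRange C, r = ‖w‖} = Pool.Agent.helper30.NR.absRange C := by
      ext r
      constructor
      · rintro ⟨w, ⟨f, hf, rfl⟩, rfl⟩
        exact ⟨f, hf, rfl⟩
      · rintro ⟨f, hf, rfl⟩
        exact ⟨_, ⟨f, hf, rfl⟩, rfl⟩
    have core := Pool.Agent.helper30.NR.final_core H hlt (C := C) hC hκ hqq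
      (w := numRadius C) (by unfold numRadius; rw [hset])
    obtain ⟨-, -, -, c1, c2, c3, c4, c5, c6⟩ := core
    rw [← hset] at c1
    rw [← hLq] at c4 c5 c6
    exact ⟨c1, c2, c3, c4, c5, c6⟩

end

end Pool.Agent.Results.MP_96b5bf_an.NumRadius
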